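import Pool.Agent.Q67.RC.Main

/-!
Question 1 of MP_3f0cb5_an: the entropy `h(θ)` of the set of fiberwise bounded orbits is
discontinuous at `θ = 0`.
-/

namespace Pool.Agent.Results.MP_3f0cb5_an.DiscontinuousAtZero

open Pool.Agent.Q67.RC

/-- The function `θ ↦ h(θ)` is not continuous at `θ = 0` (there `h(0) = 0`, whereas
`h(θ) ≥ (log 2) / 13` for `0 < θ ≤ 1/1000`). -/
theorem result : ¬ ContinuousAt h 0 := not_cont

end Pool.Agent.Results.MP_3f0cb5_an.DiscontinuousAtZero
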